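import Pool.Agent.H84.FK.Targets

/-!
MP_85c4d1_al, module C3: no element of `A` other than one is conjugate to an element of `B`.
-/

set_option autoImplicit false

namespace Pool.Agent.H48.FKC3

open Pool.Agent.H84.FK

theorem pf_c3 (hITS : T_ITS) : T_C3 := by
  intro G _ A B B0 h
  -- step 1
  have s1 : ∀ x : G, x ∈ A → x ∈ B0 → x = 1 := by
    intro x hxA hxB
    set L := Subgroup.centralizer ({x} : Set G) with hL
    have hmem : ∀ g : G, g ∈ L ↔ g * x = x * g := fun g =>
      Subgroup.mem_centralizer_singleton_iff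
    have hAL : ∀ a ∈ A, a ∈ L := fun a ha => (hmem a).2 (h.abA a ha x hxA)
    have hBL : ∀ b ∈ B0, b ∈ L := fun b hb => (hmem b).2 (h.abB b hb x hxB)
    by_cases hLt : L = ⊤
    · have hn : (Subgroup.zpowers x).Normal := by
        constructor
        intro n hn g
        have hg : g ∈ L := by rw [hLt]; exact Subgroup.mem_top g
        have hc : Commute g x := (hmem g).1 hg
        obtain ⟨k, rfl⟩ := Subgroup.mem_zpowers_iff.1 hn
        have : g * x ^ k * g⁻¹ = x ^ k := by
          rw [(hc.zpow_right k).eq, mul_inv_cancel_right]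
        rw [this]
        exact Subgroup.zpow_mem_zpowers x k
      have hs : Group.IsSolvable (Subgroup.zpowers x) :=
        Group.isSolvable_of_comm fun a b => by
          obtain ⟨a, ha⟩ := a
          obtain ⟨b, hb⟩ := b
          obtain ⟨k, rfl⟩ := Subgroup.mem_zpowers_iff.1 ha
          obtain ⟨l, rfl⟩ := Subgroup.mem_zpowers_iff.1 hb
          exact Subtype.ext ((Commute.refl x).zpow_zpow k l)
      have hb := h.quo _ hn hs
      exact Subgroup.zpowers_eq_bot.1 hb
    · have hs : Group.IsSolvable L := by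
        refine h.sub L hLt fun g hg => ?_
        obtain ⟨a, ha, b, hb, rfl⟩ := h.fac g
        refine ⟨a, ha, hAL a ha, b, hb, ?_, rfl⟩
        have := L.mul_mem (L.inv_mem (hAL a ha)) hg
        rwa [inv_mul_cancel_left] at this
      have hdiff : ∀ g g' : G, g ∉ L → g' ∉ L → g * g'⁻¹ ∈ L := by
        intro g g' hg hg'
        obtain ⟨a, ha, b, hb, rfl⟩ := h.fac g
        obtain ⟨a', ha', b', hb', rfl⟩ := h.fac g'
        have hb0 : b ∉ B0 := fun hc => hg (L.mul_mem (hAL a ha) (hBL b hc))
        have hb0' : b'⁻¹ ∉ B0 := fun hc => hg' (L.mul_mem (hAL a' ha')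
          (hBL b' (by have := B0.inv_mem hc; rwa [inv_inv] at this)))
        have h1 := h.two.2 b hb b'⁻¹ (B.inv_mem hb') hb0 hb0'
        have h2 : a * b * (a' * b')⁻¹ = a * (b * b'⁻¹) * a'⁻¹ := by
          rw [mul_inv_rev]; group
        rw [h2]
        exact L.mul_mem (L.mul_mem (hAL a ha) (hBL _ h1)) (L.inv_mem (hAL a' ha'))
      have hn : L.Normal := by
        constructor
        intro l hl g
        by_cases hg : g ∈ L
        · exact L.mul_mem (L.mul_mem hg hl) (L.inv_mem hg)
        · refine hdiff (g * l) g ?_ hg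
          intro hc
          apply hg
          have := L.mul_mem hc (L.inv_mem hl)
          rwa [mul_inv_cancel_right] at this
      have hb := h.quo L hn hs
      have hxL : x ∈ L := (hmem x).2 rfl
      rw [hb] at hxL
      exact Subgroup.mem_bot.1 hxL
  -- step 2
  have s2 : ∀ x : G, x ∈ A → x ∈ B → x ∈ B0 := by
    intro x hxA hxB
    by_contra hx0
    apply h.ns
    refine hITS G A B0 ?_ h.abA h.abB
    intro g
    obtain ⟨a, ha, b, hb, rfl⟩ := h.fac g
    by_cases hb0 : b ∈ B0
    · exact ⟨a, ha, b, hb0, rfl⟩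
    · refine ⟨a * x, A.mul_mem ha hxA, x⁻¹ * b, ?_, by group⟩
      refine h.two.2 x⁻¹ (B.inv_mem hxB) b hb ?_ hb0
      intro hc
      apply hx0
      have := B0.inv_mem hc
      rwa [inv_inv] at this
  -- step 3
  intro g a b ha hb hab
  obtain ⟨a1, ha1, b1, hb1, rfl⟩ := h.fac g
  have h1 : a = b1 * b * b1⁻¹ := by
    have h2 : a1⁻¹ * a * a1 = b1 * b * b1⁻¹ := by
      rw [hab]; group
    rw [← h2, mul_assoc, h.abA a ha a1 ha1, inv_mul_cancel_left]
  have haB : a ∈ B := by
    rw [h1]
    exact B.mul_mem (B.mul_mem hb1 hb) (B.inv_mem hb1)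
  exact s1 a ha (s2 a ha haB)

end Pool.Agent.H48.FKC3
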