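import Pool.Agent.H84.FK.Targets

/-!
MP_85c4d1_al, module F2: facts in type (ii).
-/

set_option autoImplicit false

namespace Pool.Agent.H48.FKF2

open Pool.Agent.H84.FK

variable {G : Type} [Group G] {A B B0 M : Subgroup G} {t : G}

lemma conj_pm {g x : G} (h : g * x * g⁻¹ = x ∨ g * x * g⁻¹ = x⁻¹) :
    g⁻¹ * x * g = x ∨ g⁻¹ * x * g = x⁻¹ := by
  rcases h with h | h
  · left
    calc g⁻¹ * x * g = g⁻¹ * (g * x * g⁻¹) * g := by rw [h]
      _ = x := by group
  · right
    have h2 : g * x⁻¹ * g⁻¹ = x := by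
      have := congrArg (fun y => y⁻¹) h
      simpa [mul_assoc] using this
    calc g⁻¹ * x * g = g⁻¹ * (g * x⁻¹ * g⁻¹) * g := by rw [h2]
      _ = x⁻¹ := by group

lemma conj_zpow' (g x : G) (k : ℤ) : g * x ^ k * g⁻¹ = (g * x * g⁻¹) ^ k := conj_zpow.symm

lemma conj_mem_zpowers {g x y : G} (h : g * x * g⁻¹ = x ∨ g * x * g⁻¹ = x⁻¹)
    (hy : y ∈ Subgroup.zpowers x) : g * y * g⁻¹ ∈ Subgroup.zpowers x := by
  obtain ⟨k, rfl⟩ := Subgroup.mem_zpowers_iff.1 hy
  rw [conj_zpow']
  rcases h with h | h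
  · rw [h]; exact Subgroup.zpow_mem_zpowers x k
  · rw [h]
    exact (Subgroup.zpowers x).zpow_mem ((Subgroup.zpowers x).inv_mem
      (Subgroup.mem_zpowers x)) k

/-- a subgroup which normalises `zpowers x` -/
def NZ (x : G) : Subgroup G where
  carrier := {g | (∀ y ∈ Subgroup.zpowers x, g * y * g⁻¹ ∈ Subgroup.zpowers x) ∧
    ∀ y ∈ Subgroup.zpowers x, g⁻¹ * y * g ∈ Subgroup.zpowers x}
  mul_mem' := by
    rintro a b ⟨ha, ha'⟩ ⟨hb, hb'⟩
    refine ⟨fun y hy => ?_, fun y hy => ?_⟩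
    · have := ha _ (hb y hy)
      have e : a * b * y * (a * b)⁻¹ = a * (b * y * b⁻¹) * a⁻¹ := by group
      rw [e]; exact this
    · have := hb' _ (ha' y hy)
      have e : (a * b)⁻¹ * y * (a * b) = b⁻¹ * (a⁻¹ * y * a) * b := by group
      rw [e]; exact this
  one_mem' := ⟨fun y hy => by simpa using hy, fun y hy => by simpa using hy⟩
  inv_mem' := by
    rintro a ⟨ha, ha'⟩
    refine ⟨fun y hy => ?_, fun y hy => ?_⟩
    · have := ha' y hy
      rwa [inv_inv]
    · have := ha y hy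
      rwa [inv_inv]

lemma mem_NZ {g x : G} (h : g * x * g⁻¹ = x ∨ g * x * g⁻¹ = x⁻¹) : g ∈ NZ x := by
  refine ⟨fun y hy => conj_mem_zpowers h hy, fun y hy => ?_⟩
  have h' : g⁻¹ * x * g⁻¹⁻¹ = x ∨ g⁻¹ * x * g⁻¹⁻¹ = x⁻¹ := by
    rw [inv_inv]; exact conj_pm h
  have := conj_mem_zpowers h' hy
  rwa [inv_inv] at this

lemma zpowers_solvable (x : G) : Group.IsSolvable (Subgroup.zpowers x) :=
  Group.isSolvable_of_comm fun a b => by
    obtain ⟨a, ha⟩ := a
    obtain ⟨b, hb⟩ := b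
    obtain ⟨k, rfl⟩ := Subgroup.mem_zpowers_iff.1 ha
    obtain ⟨l, rfl⟩ := Subgroup.mem_zpowers_iff.1 hb
    exact Subtype.ext ((Commute.refl x).zpow_zpow k l)

theorem pf_f2 (hC2 : T_C2) (hC3 : T_C3) (hC4 : T_C4) : T_F2 := by
  intro G _ A B B0 M t h ov htB htB0 htt htM hMB
  have C2 := hC2 G A B B0 h
  have C3 := hC3 G A B B0 h
  obtain ⟨-, hcard, -⟩ := hC4 G A B B0 h
  have hfin := h.fin
  have hti : t⁻¹ = t := inv_eq_of_mul_eq_one_right htt
  have htA : t ∉ A := by
    intro hA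
    have := C3 1 t t hA htB (by group)
    apply htB0
    rw [this]
    exact B0.one_mem
  have coset : ∀ m ∈ M, m ∈ A ∨ m * t ∈ A := by
    intro m hm
    obtain ⟨a, ha, b, hb, rfl⟩ := h.fac m
    have hbM : b ∈ M := by
      have := M.mul_mem (M.inv_mem (ov.le ha)) hm
      rwa [inv_mul_cancel_left] at this
    rcases hMB b hbM hb with h1 | h1
    · left; rw [h1, mul_one]; exact ha
    · right; rw [h1, mul_assoc, htt, mul_one]; exact ha
  have norm : ∀ x ∈ A, t * x * t⁻¹ ∈ A := by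
    intro x hx
    have hM : t * x * t⁻¹ ∈ M := M.mul_mem (M.mul_mem htM (ov.le hx)) (M.inv_mem htM)
    rcases coset _ hM with h1 | h1
    · exact h1
    · exfalso
      rw [inv_mul_cancel_right] at h1
      apply htA
      have := A.mul_mem h1 (A.inv_mem hx)
      rwa [mul_inv_cancel_right] at this
  have fac : Fac M B0 := by
    intro g
    obtain ⟨a, ha, b, hb, rfl⟩ := h.fac g
    by_cases hb0 : b ∈ B0
    · exact ⟨a, ov.le ha, b, hb0, rfl⟩
    · refine ⟨a * t, M.mul_mem (ov.le ha) htM, t * b, h.two.2 t htB b hb htB0 hb0, ?_⟩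
      rw [mul_assoc, ← mul_assoc t t b, htt, one_mul]
  have inter : ∀ y ∈ B0, y ∈ M → y = 1 := by
    intro y hy hyM
    rcases hMB y hyM (h.two.1 hy) with h1 | h1
    · exact h1
    · exfalso
      rw [h1] at hy
      exact htB0 hy
  have cenA : ∀ x ∈ A, x ≠ 1 → ∀ g : G, (g * x * g⁻¹ = x ∨ g * x * g⁻¹ = x⁻¹) → g ∈ M := by
    intro x hx hx1 g hg
    have hAN : A ≤ NZ x := by
      intro a ha
      refine mem_NZ (Or.inl ?_)
      rw [h.abA a ha x hx, mul_inv_cancel_right]
    have hne : NZ x ≠ ⊤ := by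
      intro htop
      have hn : (Subgroup.zpowers x).Normal := by
        constructor
        intro n hn g
        have hg : g ∈ NZ x := by rw [htop]; exact Subgroup.mem_top g
        exact hg.1 n hn
      exact hx1 (Subgroup.zpowers_eq_bot.1 (h.quo _ hn (zpowers_solvable x)))
    exact ov.max _ hAN hne (mem_NZ hg)
  have hB0n : ∀ b ∈ B, ∀ x ∈ B0, b * x * b⁻¹ ∈ B0 := by
    intro b hb x hx
    by_cases hb0 : b ∈ B0
    · exact B0.mul_mem (B0.mul_mem hb0 hx) (B0.inv_mem hb0)
    · refine h.two.2 _ (B.mul_mem hb (h.two.1 hx)) _ (B.inv_mem hb) ?_ ?_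
      · intro hc
        apply hb0
        have := B0.mul_mem hc (B0.inv_mem hx)
        rwa [mul_inv_cancel_right] at this
      · intro hc
        apply hb0
        have := B0.inv_mem hc
        rwa [inv_inv] at this
  -- the centralizer of an element of `B0`
  have cen : ∀ y ∈ B0, y ≠ 1 → ∃ L : Subgroup G, (∀ g, g ∈ L ↔ g * y = y * g) ∧
      (L = B0 ∨ L = B) := by
    intro y hy hy1
    have hmem : ∀ g : G, g ∈ Subgroup.centralizer ({y} : Set G) ↔ g * y = y * g := fun g =>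
      Subgroup.mem_centralizer_singleton_iff
    generalize Subgroup.centralizer ({y} : Set G) = L at hmem
    refine ⟨L, hmem, ?_⟩
    have hBL : B0 ≤ L := fun b hb => (hmem b).2 (h.abB b hb y hy)
    have hmA : ∀ m ∈ M, m ∈ L → m ∈ A → m = 1 := by
      intro m hm hmL hmA
      by_contra hm1
      have h1 : y ∈ M := by
        refine cenA m hmA hm1 y (Or.inl ?_)
        rw [← (hmem m).1 hmL, mul_inv_cancel_right]
      exact hy1 (inter y hy h1)
    have hdec : ∀ g ∈ L, g ∉ B0 → ∃ m ∈ M, m ∈ L ∧ m ∉ A ∧ ∃ b ∈ B0, g = m * b := by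
      intro g hg hg0
      obtain ⟨m, hm, b, hb, rfl⟩ := fac g
      have hmL : m ∈ L := by
        have := L.mul_mem hg (L.inv_mem (hBL hb))
        rwa [mul_inv_cancel_right] at this
      refine ⟨m, hm, hmL, fun hmA' => ?_, b, hb, rfl⟩
      rw [hmA m hm hmL hmA', one_mul] at hg0
      exact hg0 hb
    have hdiff : ∀ g g' : G, g ∈ L → g' ∈ L → g ∉ B0 → g' ∉ B0 → g'⁻¹ * g ∈ B0 := by
      intro g g' hg hg' hg0 hg0'
      obtain ⟨m, hm, hmL, hmA1, b, hb, rfl⟩ := hdec g hg hg0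
      obtain ⟨m', hm', hmL', hmA1', b', hb', rfl⟩ := hdec g' hg' hg0'
      have h1 : m * t ∈ A := (coset m hm).resolve_left hmA1
      have h2 : m' * t ∈ A := (coset m' hm').resolve_left hmA1'
      have h3 : m * m'⁻¹ ∈ A := by
        have := A.mul_mem h1 (A.inv_mem h2)
        have e : m * t * (m' * t)⁻¹ = m * m'⁻¹ := by group
        rwa [e] at this
      have h4 : m * m'⁻¹ = 1 :=
        hmA _ (M.mul_mem hm (M.inv_mem hm')) (L.mul_mem hmL (L.inv_mem hmL')) h3
      have h5 : m = m' := mul_inv_eq_one.1 h4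
      rw [h5]
      have e : (m' * b')⁻¹ * (m' * b) = b'⁻¹ * b := by group
      rw [e]
      exact B0.mul_mem (B0.inv_mem hb') hb
    have hLn : ∀ g ∈ L, ∀ x ∈ B0, g * x * g⁻¹ ∈ B0 := by
      intro g hg x hx
      by_cases hg0 : g ∈ B0
      · exact B0.mul_mem (B0.mul_mem hg0 hx) (B0.inv_mem hg0)
      · have h1 := hdiff g⁻¹ (g * x)⁻¹ (L.inv_mem hg) (L.inv_mem (L.mul_mem hg (hBL hx)))
          (fun hc => hg0 (by have := B0.inv_mem hc; rwa [inv_inv] at this))
          (fun hc => hg0 (by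
            have h2 := B0.inv_mem hc
            rw [inv_inv] at h2
            have := B0.mul_mem h2 (B0.inv_mem hx)
            rwa [mul_inv_cancel_right] at this))
        rwa [inv_inv] at h1
    have hB0ne : B0 ≠ ⊥ := by
      intro hc
      rw [hc] at hy
      exact hy1 (Subgroup.mem_bot.1 hy)
    have hLB : L ≤ B := fun g hg => C2 B0 hB0ne h.two.1 hB0n g (hLn g hg)
    by_cases hex : ∃ l ∈ L, l ∉ B0
    · right
      obtain ⟨l, hl, hl0⟩ := hex
      refine le_antisymm hLB fun b hb => ?_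
      by_cases hb0 : b ∈ B0
      · exact hBL hb0
      · have h1 : l⁻¹ * b ∈ B0 := by
          refine h.two.2 _ (B.inv_mem (hLB hl)) b hb (fun hc => hl0 ?_) hb0
          have := B0.inv_mem hc
          rwa [inv_inv] at this
        have := L.mul_mem hl (hBL h1)
        rwa [mul_inv_cancel_left] at this
    · left
      refine le_antisymm (fun g hg => ?_) hBL
      by_contra hc
      exact hex ⟨g, hg, hc⟩
  have hBn : ∀ b ∈ B, ∀ x ∈ B, b * x * b⁻¹ ∈ B := fun b hb x hx =>
    B.mul_mem (B.mul_mem hb hx) (B.inv_mem hb)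
  have cenB : ∀ y ∈ B0, y ≠ 1 → ∀ g : G, (g * y * g⁻¹ = y ∨ g * y * g⁻¹ = y⁻¹) → g ∈ B := by
    intro y hy hy1 g hg
    obtain ⟨L, hmem, hL⟩ := cen y hy hy1
    have hyL : y ∈ L := (hmem y).2 rfl
    have hne : L ≠ ⊥ := by
      intro hc
      rw [hc] at hyL
      exact hy1 (Subgroup.mem_bot.1 hyL)
    have hLB : L ≤ B := by
      rcases hL with h1 | h1
      · rw [h1]; exact h.two.1
      · rw [h1]
    have hLn : ∀ b ∈ B, ∀ x ∈ L, b * x * b⁻¹ ∈ L := by
      rcases hL with h1 | h1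
      · rw [h1]; exact hB0n
      · rw [h1]; exact hBn
    refine C2 L hne hLB hLn g fun x hx => ?_
    have hc : x * y = y * x := (hmem x).1 hx
    rw [hmem]
    -- conjugate the relation
    have h1 : (g * x * g⁻¹) * (g * y * g⁻¹) = (g * y * g⁻¹) * (g * x * g⁻¹) := by
      have e1 : (g * x * g⁻¹) * (g * y * g⁻¹) = g * (x * y) * g⁻¹ := by group
      have e2 : (g * y * g⁻¹) * (g * x * g⁻¹) = g * (y * x) * g⁻¹ := by group
      rw [e1, e2, hc]
    rcases hg with h2 | h2
    · rwa [h2] at h1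
    · rw [h2] at h1
      have h3 : Commute (g * x * g⁻¹) y⁻¹ := h1
      exact (Commute.inv_right_iff.1 h3)
  have tiA : ∀ x ∈ A, x ≠ 1 → ∀ g : G, g * x * g⁻¹ ∈ A → g ∈ M := by
    intro x hx hx1 g hg
    refine ov.conj g fun a ha => ?_
    refine cenA (g * x * g⁻¹) hg ?_ (g * a * g⁻¹) (Or.inl ?_)
    · intro hc
      apply hx1
      exact conj_eq_one_iff.1 hc
    · have e : g * a * g⁻¹ * (g * x * g⁻¹) * (g * a * g⁻¹)⁻¹ = g * (a * x * a⁻¹) * g⁻¹ := by
        group
      rw [e, h.abA a ha x hx, mul_inv_cancel_right]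
  have hB0ne' : ∀ y ∈ B0, y ≠ 1 → B0 ≠ ⊥ := by
    intro y hy hy1 hc
    rw [hc] at hy
    exact hy1 (Subgroup.mem_bot.1 hy)
  have tiB : ∀ y ∈ B0, y ≠ 1 → ∀ g : G, g * y * g⁻¹ ∈ B0 → g ∈ B := by
    intro y hy hy1 g hg
    have hy1' : g * y * g⁻¹ ≠ 1 := fun hc => hy1 (conj_eq_one_iff.1 hc)
    obtain ⟨L1, hmem1, hL1⟩ := cen _ hg hy1'
    obtain ⟨L, hmem, hL⟩ := cen y hy hy1
    have hconj : ∀ x, x ∈ L ↔ g * x * g⁻¹ ∈ L1 := by
      intro x
      rw [hmem, hmem1]
      have e1 : g * x * g⁻¹ * (g * y * g⁻¹) = g * (x * y) * g⁻¹ := by group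
      have e2 : g * y * g⁻¹ * (g * x * g⁻¹) = g * (y * x) * g⁻¹ := by group
      rw [e1, e2]
      constructor
      · intro hh; rw [hh]
      · intro hh
        exact mul_left_cancel (mul_right_cancel hh)
    rcases hL1 with h1 | h1
    · refine C2 B0 (hB0ne' y hy hy1) h.two.1 hB0n g fun x hx => ?_
      have hx' : x ∈ L := (hmem x).2 (h.abB x hx y hy)
      rw [← h1]
      exact (hconj x).1 hx'
    · have hLB : L = B := by
        rcases hL with h2 | h2
        · exfalso
          -- an injection of `B` into `B0`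
          have hinj : Nat.card B ≤ Nat.card B0 := by
            refine Nat.card_le_card_of_injective
              (fun b : B => (⟨g⁻¹ * b.1 * g, ?_⟩ : B0)) ?_
            · rw [← h2, hconj, h1]
              have e : g * (g⁻¹ * b.1 * g) * g⁻¹ = b.1 := by group
              rw [e]
              exact b.2
            · intro b b' hbb
              have := congrArg Subtype.val hbb
              exact Subtype.ext (mul_left_cancel (mul_right_cancel this))
          have hpos : 0 < Nat.card B0 := Nat.card_pos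
          omega
        · exact h2
      refine C2 B ?_ le_rfl hBn g fun x hx => ?_
      · intro hc
        have := h.two.1 hy
        rw [hc] at this
        exact hy1 (Subgroup.mem_bot.1 this)
      · rw [← h1]
        refine (hconj x).1 ?_
        rw [hLB]
        exact hx
  refine ⟨coset, norm, fac, inter, cenA, cenB, tiA, tiB, ?_⟩
  intro y hy hy1 g hg
  obtain ⟨m, hm, b, hb, rfl⟩ := fac g
  have e : m * b * y * (m * b)⁻¹ = m * (b * y * b⁻¹) * m⁻¹ := by group
  rw [e, h.abB b hb y hy, mul_inv_cancel_right] at hg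
  have h1 : y ∈ M := by
    have := M.mul_mem (M.mul_mem (M.inv_mem hm) hg) hm
    have e2 : m⁻¹ * (m * y * m⁻¹) * m = y := by group
    rwa [e2] at this
  exact hy1 (inter y hy h1)

end Pool.Agent.H48.FKF2
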